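import Mathlib
import Pool.Agent.HuaDom91.Basic
import Pool.Agent.HuaPair25.Ring

/-!
Hua systems in arbitrary characteristic: the quadratic fields `u ↦ U_u c` modulo affine maps,
and the annihilators of their differences.
-/

set_option autoImplicit false

namespace Pool.Agent.HuaP73

open Pool.Agent.HuaTop84 Pool.Agent.HuaVal Pool.Agent.HuaOne84 Pool.Agent.HuaDom91
  Pool.Agent.HuaPair25

variable {A : Type} [AddCommGroup A]

/-- The vector field `u ↦ U_u y`, additive in `y`. -/
def fld (H : HS A) : A →+ (A → A) where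
  toFun y := fun u => H.U u y
  map_zero' := by
    funext u
    exact map_zero _
  map_add' y z := by
    funext u
    exact map_add _ _ _

theorem fld_apply (H : HS A) (y u : A) : fld H y u = H.U u y := rfl

/-- The map `G` is affine: a constant plus an additive map. -/
def IsAff (G : A → A) : Prop := ∀ u v : A, G (u + v) + G 0 = G u + G v

theorem IsAff.zero : IsAff (0 : A → A) := by
  intro u v
  simp

theorem IsAff.add {F G : A → A} (hF : IsAff F) (hG : IsAff G) : IsAff (F + G) := by
  intro u v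
  have h1 := hF u v
  have h2 := hG u v
  simp only [Pi.add_apply]
  calc F (u + v) + G (u + v) + (F 0 + G 0) = (F (u + v) + F 0) + (G (u + v) + G 0) := by abel
    _ = (F u + F v) + (G u + G v) := by rw [h1, h2]
    _ = _ := by abel

theorem IsAff.neg {F : A → A} (hF : IsAff F) : IsAff (-F) := by
  intro u v
  have h1 := hF u v
  simp only [Pi.neg_apply]
  rw [← neg_add, ← neg_add, h1]

theorem IsAff.sub {F G : A → A} (hF : IsAff F) (hG : IsAff G) : IsAff (F - G) := by
  rw [sub_eq_add_neg]
  exact hF.add hG.neg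

/-- The affine maps. -/
def affS : AddSubgroup (A → A) where
  carrier := {F | IsAff F}
  add_mem' := fun h1 h2 => h1.add h2
  zero_mem' := IsAff.zero
  neg_mem' := fun h => h.neg

theorem IsAff.zsmul {F : A → A} (hF : IsAff F) (n : ℤ) : IsAff (n • F) :=
  affS.zsmul_mem (show F ∈ affS from hF) n

theorem IsAff.trans {F : A → A} (hF : IsAff F) (a : A) : IsAff (fun u => F (u + a)) := by
  intro u v
  have h1 := hF (u + a) v
  have h2 := hF u v
  have h3 := hF v a
  have h4 : u + v + a = u + a + v := by abel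
  change F (u + v + a) + F (0 + a) = F (u + a) + F (v + a)
  rw [h4, zero_add]
  have h5 : F (u + a + v) = F (u + a) + F v - F 0 := by rw [← h1]; abel
  have h6 : F (v + a) = F v + F a - F 0 := by rw [← h3]; abel
  rw [h5, h6]
  abel

theorem IsAff.act {F : A → A} (hF : IsAff F) (s : AddMonoidAlgebra ℤ A) :
    IsAff (act s F) := by
  induction s using AddMonoidAlgebra.induction_linear with
  | zero =>
    rw [map_zero]
    exact IsAff.zero
  | add f g hf hg =>
    rw [map_add, LinearMap.add_apply]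
    exact hf.add hg
  | single a n =>
    unfold Pool.Agent.HuaPair25.act
    rw [AddMonoidAlgebra.lift_single]
    exact (hF.trans a).zsmul n

/-- The annihilator of a map modulo the affine maps. -/
noncomputable def annm (F : A → A) : Ideal (AddMonoidAlgebra ℤ A) where
  carrier := {s | IsAff (act s F)}
  add_mem' := by
    intro s t hs ht
    show IsAff (act (s + t) F)
    rw [map_add, LinearMap.add_apply]
    exact IsAff.add hs ht
  zero_mem' := by
    show IsAff (act (0 : AddMonoidAlgebra ℤ A) F)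
    rw [map_zero]
    exact IsAff.zero
  smul_mem' := by
    intro r s hs
    show IsAff (act (r * s) F)
    rw [map_mul, Module.End.mul_apply]
    exact IsAff.act hs r

theorem mem_annm {F : A → A} {s : AddMonoidAlgebra ℤ A} : s ∈ annm F ↔ IsAff (act s F) := Iff.rfl

theorem annm_of_sub {F G : A → A} (h : IsAff (F - G)) : annm F = annm G := by
  have key : ∀ {F G : A → A}, IsAff (F - G) → ∀ s, s ∈ annm F → s ∈ annm G := by
    intro F G h s hs
    rw [mem_annm] at hs ⊢
    have h1 : act s G = act s F - act s (F - G) := by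
      rw [map_sub]
      abel
    rw [h1]
    exact IsAff.sub hs (IsAff.act h s)
  ext s
  refine ⟨key h s, key ?_ s⟩
  have h2 := h.neg
  rwa [neg_sub] at h2

theorem annm_add {F G : A → A} {s : AddMonoidAlgebra ℤ A} (hF : s ∈ annm F) (hG : s ∈ annm G) :
    s ∈ annm (F + G) := by
  rw [mem_annm, map_add]
  exact IsAff.add hF hG

theorem mem_annm_act {F : A → A} {s t : AddMonoidAlgebra ℤ A} :
    s ∈ annm (act t F) ↔ s * t ∈ annm F := by
  rw [mem_annm, mem_annm, map_mul, Module.End.mul_apply]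

variable {H : HS A}

/-- The evaluation formula. -/
theorem tt_inv_mem (H : HS A) {c : A} (hc : c ≠ 0) : tt (H.inv c) ∈ annm (fld H c) := by
  rw [mem_annm, act_tt]
  intro u v
  have key : ∀ w : A, fwdDiff (H.inv c) (fld H c) w = w + w + H.inv c := by
    intro w
    have h := U_shift H w (H.inv_ne c hc)
    rw [H.inv_inv] at h
    simp only [fwdDiff, fld_apply]
    rw [h]
    abel
  rw [key, key, key, key]
  abel

/-- The annihilator of `u ↦ U_u c` contains `D_z D_{z'}` for `z' = U_c⁻¹ z⁻¹`. -/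
theorem star (H : HS A) {c z : A} (hc : c ≠ 0) (hz : z ≠ 0) :
    tt z * tt (H.U (H.inv c) (H.inv z)) ∈ annm (fld H c) := by
  set e := H.inv c with he
  have he0 : e ≠ 0 := H.inv_ne c hc
  have hec : H.inv e = c := by rw [he, H.inv_inv]
  have hE : tt e ∈ annm (fld H c) := tt_inv_mem H hc
  by_cases hez : e + z = 0
  · have hz' : z = -e := by
      rw [eq_neg_iff_add_eq_zero, add_comm]; exact hez
    refine Ideal.mul_mem_right _ _ ?_
    rw [hz', tt_neg]
    exact neg_mem (Ideal.mul_mem_left _ _ hE)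
  set z' := H.U e (H.inv z) with hz'
  have hz'0 : z' ≠ 0 := fun h0 => H.inv_ne z hz (H.U_inj he0 h0)
  have hez' : e + z' ≠ 0 := by
    intro h0
    apply hez
    have h1 : H.U e (H.inv z) = H.U e (-H.inv e) := by
      rw [map_neg, H.U_self]
      exact (neg_eq_of_add_eq_zero_right h0).symm
    have h2 := H.U_inj' he0 h1
    have h3 : z = -e := by
      rw [← H.inv_inv z, h2, H.inv_neg, H.inv_inv]
    rw [h3]
    abel
  have h1 : c = H.inv (e + z) + H.inv (e + z') := by
    have h2 := inv_sub H he0 hz hez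
    rw [hec] at h2
    rw [← h2]
    abel
  have h3 : tt (e + z) * tt (e + z') ∈ annm (fld H c) := by
    rw [h1, map_add]
    refine annm_add ?_ ?_
    · refine Ideal.mul_mem_right _ _ ?_
      have := tt_inv_mem H (H.inv_ne _ hez)
      rwa [H.inv_inv] at this
    · refine Ideal.mul_mem_left _ _ ?_
      have := tt_inv_mem H (H.inv_ne _ hez')
      rwa [H.inv_inv] at this
  have h4 : tt z * tt z' = AddMonoidAlgebra.single (-(e + e)) (1 : ℤ) * (tt (e + z) * tt (e + z')) -
      AddMonoidAlgebra.single (-(e + e)) (1 : ℤ) *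
        (AddMonoidAlgebra.single e 1 * tt z + tt (e + z')) * tt e := by
    rw [tt_add e z, tt_add e z']
    have h5 : AddMonoidAlgebra.single (-(e + e)) (1 : ℤ) * AddMonoidAlgebra.single e (1 : ℤ) *
        AddMonoidAlgebra.single e (1 : ℤ) = 1 := by
      rw [AddMonoidAlgebra.single_mul_single, AddMonoidAlgebra.single_mul_single,
        AddMonoidAlgebra.one_def]
      congr 1
      · abel
    linear_combination (-(tt z * tt z')) * h5
  rw [h4]
  exact sub_mem (Ideal.mul_mem_left _ _ h3) (Ideal.mul_mem_left _ _ hE)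

/-- `D_{w + 1/c} f_c = D_w f_c` modulo affine maps. -/
theorem diff_shift (H : HS A) {c : A} (hc : c ≠ 0) (w : A) :
    IsAff (fwdDiff (w + H.inv c) (fld H c) - fwdDiff w (fld H c)) := by
  have h : fwdDiff (w + H.inv c) (fld H c) - fwdDiff w (fld H c) =
      act (AddMonoidAlgebra.single w (1 : ℤ) * tt (H.inv c) : AddMonoidAlgebra ℤ A)
        (fld H c) := by
    rw [← act_tt, ← act_tt, tt_add, map_add, LinearMap.add_apply]
    abel_nf
  rw [h]
  exact (annm (fld H c)).mul_mem_left _ (tt_inv_mem H hc)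

/-- `D_w f_{c + 1/w} = D_w f_c` modulo affine maps. -/
theorem diff_arg (H : HS A) (c : A) {w : A} (hw : w ≠ 0) :
    IsAff (fwdDiff w (fld H (c + H.inv w)) - fwdDiff w (fld H c)) := by
  have h : fwdDiff w (fld H (c + H.inv w)) - fwdDiff w (fld H c) =
      act (tt w) (fld H (H.inv w)) := by
    rw [act_tt, map_add]
    funext u
    simp only [fwdDiff, Pi.sub_apply, Pi.add_apply]
    abel
  rw [h]
  have h1 := tt_inv_mem H (H.inv_ne w hw)
  rwa [H.inv_inv] at h1

/-- The basic coincidence. -/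
theorem trick (H : HS A) {y : A} (hy : y ≠ 0) (hy1 : H.one + y ≠ 0) :
    IsAff (fwdDiff (H.U (H.inv (H.one + H.inv y)) y) (fld H (H.U (H.one + H.inv y) H.one)) -
      fwdDiff y (fld H H.one)) := by
  have h10 := H.one_ne
  have hiy := H.inv_ne y hy
  set ρ := H.one + H.inv y with hρ
  have hρ0 : ρ ≠ 0 := by
    intro h0
    apply hy1
    have h1 : H.inv y = -H.one := by
      rw [eq_neg_iff_add_eq_zero, add_comm]; exact h0
    have h2 : y = -H.one := by
      rw [← H.inv_inv y, h1, H.inv_neg, H.inv_one]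
    rw [h2]; abel
  have hy2 : y + H.one ≠ 0 := by rwa [add_comm]
  set y' := y - H.inv ρ with hy'
  have hy'1 : y' = H.U y (H.inv (y + H.one)) := by
    have h := H.inv_add (H.inv y) H.one hiy h10 (by rwa [add_comm])
    rw [H.inv_inv, H.inv_one] at h
    rw [hy', hρ, add_comm H.one, h]
    abel
  have hy'0 : y' ≠ 0 := by
    rw [hy'1]
    intro h0
    exact H.inv_ne _ hy2 (H.U_inj hy h0)
  have hiy' : H.inv y' = H.inv y + H.U (H.inv y) H.one := by
    rw [hy'1, H.inv_U _ _ hy, H.inv_inv, map_add]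
    have h1 := H.U_self (H.inv y)
    rw [H.inv_inv] at h1
    rw [h1]
  have hc'' : ρ + H.inv y' = H.U ρ H.one := by
    have h1 := U_shift H (H.inv y) h10
    rw [H.inv_one] at h1
    rw [hiy', hρ, add_comm H.one, h1]
    abel
  have hρ1 : H.U ρ H.one ≠ 0 := fun h0 => h10 (H.U_inj hρ0 h0)
  have hy'2 : y' = H.U (H.inv ρ) (H.one + y) := by
    have h1 := H.sum H.one y (H.inv (H.one + y)) h10 hy hy1
    rw [H.U_self, H.inv_one, H.U_one, ← hρ] at h1
    rw [h1, H.U_inv_left _ _ hρ0, hy'1, add_comm y]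
  have hy'' : y' - H.inv (H.U ρ H.one) = H.U (H.inv ρ) y := by
    rw [hy'2, H.inv_U _ _ hρ0, H.inv_one, map_add]
    abel
  -- the chain
  have s1 := diff_arg H H.one hy
  rw [← hρ] at s1
  have s2 := diff_shift H hρ0 y'
  have s2' : y' + H.inv ρ = y := by rw [hy']; abel
  rw [s2'] at s2
  have s3 := diff_arg H ρ hy'0
  rw [hc''] at s3
  have s4 := diff_shift H hρ1 (H.U (H.inv ρ) y)
  have s4' : H.U (H.inv ρ) y + H.inv (H.U ρ H.one) = y' := by rw [← hy'']; abel
  rw [s4'] at s4
  have h := ((s3.sub s4).sub s2).add s1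
  have h' : fwdDiff y' (fld H (H.U ρ H.one)) - fwdDiff y' (fld H ρ) -
      (fwdDiff y' (fld H (H.U ρ H.one)) - fwdDiff (H.U (H.inv ρ) y) (fld H (H.U ρ H.one))) -
      (fwdDiff y (fld H ρ) - fwdDiff y' (fld H ρ)) +
      (fwdDiff y (fld H ρ) - fwdDiff y (fld H H.one)) =
      fwdDiff (H.U (H.inv ρ) y) (fld H (H.U ρ H.one)) - fwdDiff y (fld H H.one) := by
    abel
  rwa [h'] at h

/-- Conjugation by `U_ρ`. -/
theorem IsAff.conj {F : A → A} (hF : IsAff F) (ρ : A) :
    IsAff (fun u => H.U ρ (F (H.U (H.inv ρ) u))) := by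
  intro u v
  simp only [map_zero]
  rw [← map_add, map_add (H.U (H.inv ρ)), hF, map_add]

theorem conj_diff (H : HS A) {ρ : A} (hρ : ρ ≠ 0) (b c : A) :
    (fun u => H.U ρ (fwdDiff b (fld H c) (H.U (H.inv ρ) u))) =
      fwdDiff (H.U ρ b) (fld H (H.U (H.inv ρ) c)) := by
  funext u
  simp only [fwdDiff, fld_apply, map_sub]
  have h1 : H.U (H.inv ρ) u + b = H.U (H.inv ρ) (u + H.U ρ b) := by
    rw [map_add, H.U_inv_left _ _ hρ]
  rw [h1, H.U_U, H.U_U, H.U_inv_right _ _ hρ, H.U_inv_right _ _ hρ]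

/-- `D_{h^k y} f_{h^{-k} 1} = D_y f_1` modulo affine maps, where `h = U_ρ`, `ρ = 1 + 1/y`. -/
theorem trick_iter (H : HS A) {y : A} (hy : y ≠ 0) (hy1 : H.one + y ≠ 0) (k : ℕ) :
    IsAff (fwdDiff ((H.U (H.one + H.inv y))^[k] y)
        (fld H ((H.U (H.inv (H.one + H.inv y)))^[k] H.one)) - fwdDiff y (fld H H.one)) := by
  have hρ0 : H.one + H.inv y ≠ 0 := by
    intro h0
    apply hy1
    have h1 : H.inv y = -H.one := by
      rw [eq_neg_iff_add_eq_zero, add_comm]; exact h0
    have h2 : y = -H.one := by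
      rw [← H.inv_inv y, h1, H.inv_neg, H.inv_one]
    rw [h2]; abel
  have h1 := (trick H hy hy1).conj (H := H) (H.one + H.inv y)
  set ρ := H.one + H.inv y with hρ
  have e1 : (fun u => H.U ρ ((fwdDiff (H.U (H.inv ρ) y) (fld H (H.U ρ H.one)) -
      fwdDiff y (fld H H.one)) (H.U (H.inv ρ) u))) =
      fwdDiff y (fld H H.one) - fwdDiff (H.U ρ y) (fld H (H.U (H.inv ρ) H.one)) := by
    have h2 := conj_diff H hρ0 (H.U (H.inv ρ) y) (H.U ρ H.one)
    rw [H.U_inv_right _ _ hρ0, H.U_inv_left _ _ hρ0] at h2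
    rw [← conj_diff H hρ0 y H.one]
    funext u
    have h3 := congrFun h2 u
    simp only [Pi.sub_apply, map_sub]
    rw [← h3]
  rw [e1] at h1
  induction k with
  | zero =>
    simp only [Function.iterate_zero, id_eq, sub_self]
    exact IsAff.zero
  | succ k ih =>
    have h2 := ih.conj (H := H) ρ
    have e2 : (fun u => H.U ρ ((fwdDiff ((H.U ρ)^[k] y)
        (fld H ((H.U (H.inv ρ))^[k] H.one)) - fwdDiff y (fld H H.one)) (H.U (H.inv ρ) u))) =
        fwdDiff ((H.U ρ)^[k + 1] y) (fld H ((H.U (H.inv ρ))^[k + 1] H.one)) -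
          fwdDiff (H.U ρ y) (fld H (H.U (H.inv ρ) H.one)) := by
      rw [Function.iterate_succ_apply', Function.iterate_succ_apply', ← conj_diff H hρ0,
        ← conj_diff H hρ0]
      funext u
      simp only [Pi.sub_apply, map_sub]
    rw [e2] at h2
    have h3 := h2.sub h1
    have e3 : fwdDiff ((H.U ρ)^[k + 1] y) (fld H ((H.U (H.inv ρ))^[k + 1] H.one)) -
          fwdDiff (H.U ρ y) (fld H (H.U (H.inv ρ) H.one)) -
        (fwdDiff y (fld H H.one) - fwdDiff (H.U ρ y) (fld H (H.U (H.inv ρ) H.one))) =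
        fwdDiff ((H.U ρ)^[k + 1] y) (fld H ((H.U (H.inv ρ))^[k + 1] H.one)) -
          fwdDiff y (fld H H.one) := by abel
    rwa [e3] at h3

/-- The annihilator of `D_y f_1` modulo affine maps. -/
noncomputable def aa (H : HS A) (y : A) : Ideal (AddMonoidAlgebra ℤ A) :=
  annm (fwdDiff y (fld H H.one))

theorem mem_aa {y : A} {s : AddMonoidAlgebra ℤ A} :
    s ∈ aa H y ↔ IsAff (act s (fwdDiff y (fld H H.one))) := Iff.rfl

/-- `U_{h^k 1} = h^{2 k}`. -/
theorem U_iter (H : HS A) (ρ : A) (k : ℕ) (x : A) :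
    H.U ((H.U ρ)^[k] H.one) x = (H.U ρ)^[k + k] x := by
  induction k generalizing x with
  | zero =>
    simp only [Function.iterate_zero, id_eq, Nat.add_zero]
    rw [H.U_one]
  | succ k ih =>
    have h : k + 1 + (k + 1) = (k + k) + 1 + 1 := by omega
    rw [Function.iterate_succ_apply', H.U_U, ih, h, Function.iterate_succ_apply',
      Function.iterate_succ_apply]

theorem iter_ne (H : HS A) {ρ : A} (hρ : ρ ≠ 0) (k : ℕ) {x : A} (hx : x ≠ 0) :
    (H.U ρ)^[k] x ≠ 0 := by
  induction k with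
  | zero => simpa using hx
  | succ k ih =>
    rw [Function.iterate_succ_apply']
    exact fun h0 => ih (H.U_inj hρ h0)

theorem inv_iter (H : HS A) {ρ : A} (hρ : ρ ≠ 0) (k : ℕ) (x : A) :
    H.inv ((H.U ρ)^[k] x) = (H.U (H.inv ρ))^[k] (H.inv x) := by
  induction k with
  | zero => simp
  | succ k ih =>
    rw [Function.iterate_succ_apply', Function.iterate_succ_apply', H.inv_U _ _ hρ, ih]

theorem iter_cancel (H : HS A) {ρ : A} (hρ : ρ ≠ 0) (k : ℕ) (x : A) :
    (H.U ρ)^[k] ((H.U (H.inv ρ))^[k] x) = x := by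
  induction k generalizing x with
  | zero => simp
  | succ k ih =>
    rw [Function.iterate_succ_apply, Function.iterate_succ_apply', H.U_inv_right _ _ hρ, ih]

/-- `D_z D_{h^{2k} z⁻¹}` annihilates `D_y f_1` modulo affine maps. -/
theorem mem_aa_iter (H : HS A) {y : A} (hy : y ≠ 0) (hy1 : H.one + y ≠ 0) (k : ℕ) {z : A}
    (hz : z ≠ 0) :
    tt z * tt ((H.U (H.one + H.inv y))^[k + k] (H.inv z)) ∈ aa H y := by
  have hρ0 : H.one + H.inv y ≠ 0 := by
    intro h0
    apply hy1
    have h1 : H.inv y = -H.one := by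
      rw [eq_neg_iff_add_eq_zero, add_comm]; exact h0
    have h2 : y = -H.one := by
      rw [← H.inv_inv y, h1, H.inv_neg, H.inv_one]
    rw [h2]; abel
  have h1 := annm_of_sub (trick_iter H hy hy1 k)
  unfold aa
  rw [← h1, ← act_tt, mem_annm_act]
  refine Ideal.mul_mem_right _ _ ?_
  have hiρ0 := H.inv_ne _ hρ0
  have h2 := star H (iter_ne H hiρ0 k H.one_ne) hz
  rwa [inv_iter H hiρ0, H.inv_inv, H.inv_one, U_iter] at h2

/-- The map `g = U_ρ²`, `ρ = 1 + 1/y`. -/
def gg (H : HS A) (y : A) : A →+ A :=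
  (H.U (H.one + H.inv y)).comp (H.U (H.one + H.inv y))

theorem gg_apply (H : HS A) (y x : A) :
    gg H y x = H.U (H.one + H.inv y) (H.U (H.one + H.inv y) x) := rfl

theorem gg_iter (H : HS A) (y : A) (k : ℕ) (x : A) :
    (gg H y)^[k] x = (H.U (H.one + H.inv y))^[k + k] x := by
  induction k generalizing x with
  | zero => simp
  | succ k ih =>
    have h : k + 1 + (k + 1) = (k + k) + 1 + 1 := by omega
    rw [Function.iterate_succ_apply, ih, h, Function.iterate_succ_apply,
      Function.iterate_succ_apply]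
    rfl

/-- The hypothesis of the halving step. -/
theorem hrho (H : HS A) {y : A} (hy : y ≠ 0) (hy1 : H.one + y ≠ 0) :
    ∀ z : A, z ≠ 0 → ∀ i j : ℕ, tt ((gg H y)^[i] z) * tt ((gg H y)^[j] (H.inv z)) ∈ aa H y := by
  intro z hz i j
  have hρ0 : H.one + H.inv y ≠ 0 := by
    intro h0
    apply hy1
    have h1 : H.inv y = -H.one := by
      rw [eq_neg_iff_add_eq_zero, add_comm]; exact h0
    have h2 : y = -H.one := by
      rw [← H.inv_inv y, h1, H.inv_neg, H.inv_one]
    rw [h2]; abel
  have h1 := mem_aa_iter H hy hy1 (i + j) (z := (gg H y)^[i] z)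
    (by rw [gg_iter]; exact iter_ne H hρ0 _ hz)
  have h2 : (H.U (H.one + H.inv y))^[i + j + (i + j)] (H.inv ((gg H y)^[i] z)) =
      (gg H y)^[j] (H.inv z) := by
    rw [gg_iter, gg_iter, inv_iter H hρ0]
    have h3 : i + j + (i + j) = (j + j) + (i + i) := by omega
    rw [h3, Function.iterate_add_apply, iter_cancel H hρ0]
  rwa [h2] at h1

/-- The map on the group ring induced by an additive map. -/
noncomputable def mapR (g : A →+ A) : AddMonoidAlgebra ℤ A →+* AddMonoidAlgebra ℤ A :=
  AddMonoidAlgebra.mapDomainRingHom ℤ g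

theorem mapR_single (g : A →+ A) (a : A) (n : ℤ) :
    mapR g (AddMonoidAlgebra.single a n) = AddMonoidAlgebra.single (g a) n := by
  unfold mapR
  simp

theorem mapR_tt (g : A →+ A) (a : A) : mapR g (tt a) = tt (g a) := by
  unfold tt
  rw [map_sub, map_one, mapR_single]

theorem act_mapR (g : A →+ A) (s : AddMonoidAlgebra ℤ A) (F : A → A) :
    (fun u => act (mapR g s) F (g u)) = act s (fun u => F (g u)) := by
  induction s using AddMonoidAlgebra.induction_linear with
  | zero =>
    simp only [map_zero]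
    rfl
  | add f h hf hg =>
    rw [map_add, map_add, map_add, LinearMap.add_apply, LinearMap.add_apply, ← hf, ← hg]
    rfl
  | single a n =>
    rw [mapR_single]
    unfold act
    rw [AddMonoidAlgebra.lift_single, AddMonoidAlgebra.lift_single]
    funext u
    show n • F (g u + g a) = n • F (g (u + a))
    rw [map_add]

end Pool.Agent.HuaP73
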